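import Pool.Agent.Helper99.BK.Stmts

/-!
Module CMs: the size function of the group generated by one element and the units.
-/

set_option autoImplicit false

namespace Pool.Helper99.BK

open NumberField

section
variable {K : Type} [Field K] [NumberField K]

theorem cms_pi_ne {π : 𝓞 K} (hπ : π ≠ 0) : (π : K) ≠ 0 := by
  intro h
  apply hπ
  exact RingOfIntegers.ext h

theorem cms_gel_ne {π : 𝓞 K} (hπ : π ≠ 0) (ε1 ε2 : (𝓞 K)ˣ) (p : Fin 3 → ℤ) :
    gel π ε1 ε2 p ≠ 0 := by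
  unfold gel
  exact mul_ne_zero (mul_ne_zero (zpow_ne_zero _ (cms_pi_ne hπ))
    (zpow_ne_zero _ (Units.coe_ne_zero ε1))) (zpow_ne_zero _ (Units.coe_ne_zero ε2))

theorem cms_gel_add {π : 𝓞 K} (hπ : π ≠ 0) (ε1 ε2 : (𝓞 K)ˣ) (p q : Fin 3 → ℤ) :
    gel π ε1 ε2 (p + q) = gel π ε1 ε2 p * gel π ε1 ε2 q := by
  unfold gel
  rw [Pi.add_apply, Pi.add_apply, Pi.add_apply, zpow_add₀ (cms_pi_ne hπ),
    zpow_add₀ (Units.coe_ne_zero ε1), zpow_add₀ (Units.coe_ne_zero ε2)]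
  ring

theorem cms_gel_smul (π : 𝓞 K) (ε1 ε2 : (𝓞 K)ˣ) (n : ℤ) (p : Fin 3 → ℤ) :
    gel π ε1 ε2 (n • p) = (gel π ε1 ε2 p) ^ n := by
  unfold gel
  rw [Pi.smul_apply, Pi.smul_apply, Pi.smul_apply, smul_eq_mul, smul_eq_mul, smul_eq_mul,
    mul_comm n (p 0), mul_comm n (p 1), mul_comm n (p 2), zpow_mul, zpow_mul, zpow_mul, mul_zpow,
    mul_zpow]

theorem cms_log_mul (f : K →+* ℂ) {x y : K} (hx : x ≠ 0) (hy : y ≠ 0) :
    Real.log ‖f (x * y)‖ = Real.log ‖f x‖ + Real.log ‖f y‖ := by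
  have h1 : ‖f x‖ ≠ 0 := norm_ne_zero_iff.mpr ((map_ne_zero f).mpr hx)
  have h2 : ‖f y‖ ≠ 0 := norm_ne_zero_iff.mpr ((map_ne_zero f).mpr hy)
  rw [map_mul, norm_mul, Real.log_mul h1 h2]

theorem cms_nrm_add {σ : Fin 3 → (K →+* ℂ)} {π : 𝓞 K} (hπ : π ≠ 0) (ε1 ε2 : (𝓞 K)ˣ) {A : ℝ}
    (hA : 0 ≤ A) (lam : Fin 3 → ℂ) (p q : Fin 3 → ℤ) :
    nrm σ π ε1 ε2 A lam (p + q) ≤ nrm σ π ε1 ε2 A lam p + nrm σ π ε1 ε2 A lam q := by
  have h1 : (∑ i, |Real.log ‖σ i (gel π ε1 ε2 (p + q))‖|) ≤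
      (∑ i, |Real.log ‖σ i (gel π ε1 ε2 p)‖|) + ∑ i, |Real.log ‖σ i (gel π ε1 ε2 q)‖| := by
    rw [← Finset.sum_add_distrib]
    refine Finset.sum_le_sum fun i _ => ?_
    rw [cms_gel_add hπ, cms_log_mul _ (cms_gel_ne hπ _ _ _) (cms_gel_ne hπ _ _ _)]
    exact abs_add_le _ _
  have h2 : A * |(((p + q) 0 : ℤ) : ℝ)| ≤ A * |((p 0 : ℤ) : ℝ)| + A * |((q 0 : ℤ) : ℝ)| := by
    rw [← mul_add]
    refine mul_le_mul_of_nonneg_left ?_ hA
    rw [Pi.add_apply, Int.cast_add]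
    exact abs_add_le _ _
  have h3 : ‖∑ i, (((p + q) i : ℤ) : ℂ) * lam i‖ ≤
      ‖∑ i, ((p i : ℤ) : ℂ) * lam i‖ + ‖∑ i, ((q i : ℤ) : ℂ) * lam i‖ := by
    have : (∑ i, (((p + q) i : ℤ) : ℂ) * lam i) =
        (∑ i, ((p i : ℤ) : ℂ) * lam i) + ∑ i, ((q i : ℤ) : ℂ) * lam i := by
      rw [← Finset.sum_add_distrib]
      refine Finset.sum_congr rfl fun i _ => ?_
      rw [Pi.add_apply, Int.cast_add]
      ring
    rw [this]
    exact norm_add_le _ _
  unfold nrm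
  linarith

theorem cms_nrm_smul (σ : Fin 3 → (K →+* ℂ)) (π : 𝓞 K) (ε1 ε2 : (𝓞 K)ˣ) (A : ℝ)
    (lam : Fin 3 → ℂ) (n : ℤ) (p : Fin 3 → ℤ) :
    nrm σ π ε1 ε2 A lam (n • p) = |(n : ℝ)| * nrm σ π ε1 ε2 A lam p := by
  have h1 : (∑ i, |Real.log ‖σ i (gel π ε1 ε2 (n • p))‖|) =
      |(n : ℝ)| * ∑ i, |Real.log ‖σ i (gel π ε1 ε2 p)‖| := by
    rw [Finset.mul_sum]
    refine Finset.sum_congr rfl fun i _ => ?_
    rw [cms_gel_smul, map_zpow₀, norm_zpow, Real.log_zpow, abs_mul]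
  have h2 : A * |(((n • p) 0 : ℤ) : ℝ)| = |(n : ℝ)| * (A * |((p 0 : ℤ) : ℝ)|) := by
    rw [Pi.smul_apply, smul_eq_mul, Int.cast_mul, abs_mul]
    ring
  have h3 : ‖∑ i, (((n • p) i : ℤ) : ℂ) * lam i‖ = |(n : ℝ)| * ‖∑ i, ((p i : ℤ) : ℂ) * lam i‖ := by
    have : (∑ i, (((n • p) i : ℤ) : ℂ) * lam i) = (n : ℂ) * ∑ i, ((p i : ℤ) : ℂ) * lam i := by
      rw [Finset.mul_sum]
      refine Finset.sum_congr rfl fun i _ => ?_
      rw [Pi.smul_apply, smul_eq_mul, Int.cast_mul]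
      ring
    rw [this, norm_mul, Complex.norm_intCast]
  unfold nrm
  rw [h1, h2, h3]
  ring

theorem cms_nrm_ge (σ : Fin 3 → (K →+* ℂ)) (π : 𝓞 K) (ε1 ε2 : (𝓞 K)ˣ) {A : ℝ} (hA : 0 ≤ A)
    (lam : Fin 3 → ℂ) (p : Fin 3 → ℤ) :
    ‖∑ i, ((p i : ℤ) : ℂ) * lam i‖ ≤ nrm σ π ε1 ε2 A lam p ∧
    4 * (∑ i, |Real.log ‖σ i (gel π ε1 ε2 p)‖|) + A * |((p 0 : ℤ) : ℝ)| ≤
      nrm σ π ε1 ε2 A lam p ∧ A * |((p 0 : ℤ) : ℝ)| ≤ nrm σ π ε1 ε2 A lam p := by
  have h1 : 0 ≤ ∑ i, |Real.log ‖σ i (gel π ε1 ε2 p)‖| := Finset.sum_nonneg fun _ _ => abs_nonneg _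
  have h2 : 0 ≤ A * |((p 0 : ℤ) : ℝ)| := mul_nonneg hA (abs_nonneg _)
  have h3 : 0 ≤ ‖∑ i, ((p i : ℤ) : ℂ) * lam i‖ := norm_nonneg _
  unfold nrm
  refine ⟨by linarith, by linarith, by linarith⟩

end

/-- powers of an element whose denominator and whose inverse's denominator divide `q` -/
theorem cms_zpow_int {L : Type} [Field L] {x : L} {q : ℕ} (h1 : IsIntegral ℤ ((q : L) * x))
    (h2 : IsIntegral ℤ ((q : L) * x⁻¹)) (a : ℤ) : IsIntegral ℤ ((q : L) ^ a.natAbs * x ^ a) := by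
  rcases Int.natAbs_eq a with h | h
  · have : x ^ a = x ^ a.natAbs := by
      conv_lhs => rw [h]
      rw [zpow_natCast]
    rw [this, ← mul_pow]
    exact h1.pow _
  · have : x ^ a = x⁻¹ ^ a.natAbs := by
      conv_lhs => rw [h]
      rw [zpow_neg, zpow_natCast, inv_pow]
    rw [this, ← mul_pow]
    exact h2.pow _

/-- the element `N / π` is integral -/
theorem cms_norm_div {K : Type} [Field K] [NumberField K] {π : 𝓞 K} (hπ : π ≠ 0) :
    ∃ w : 𝓞 K, (((Algebra.norm ℤ π).natAbs : ℕ) : K) * (π : K)⁻¹ = (w : K) := by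
  have h1 : (((Ideal.absNorm (Ideal.span {π}) : ℕ)) : 𝓞 K) ∈ Ideal.span {π} :=
    Ideal.absNorm_mem _
  rw [Ideal.absNorm_span_singleton, Ideal.mem_span_singleton] at h1
  obtain ⟨w, hw⟩ := h1
  refine ⟨w, ?_⟩
  have h2 : (((Algebra.norm ℤ π).natAbs : ℕ) : K) = (π : K) * (w : K) := by
    have := congrArg (fun y : 𝓞 K => (y : K)) hw
    simpa using this
  rw [h2, mul_comm (π : K), mul_assoc, mul_inv_cancel₀ (cms_pi_ne hπ), mul_one]

theorem cms_log_le {H : ℝ} (hH : 3 ≤ H) : Real.log 64 ≤ 4 * Real.log H ∧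
    Real.log 54 ≤ 4 * Real.log H ∧ 0 < Real.log H := by
  have h0 : 0 < Real.log H := Real.log_pos (by linarith)
  have h1 : (81 : ℝ) ≤ H ^ 4 := by
    have := pow_le_pow_left₀ (by norm_num : (0 : ℝ) ≤ 3) hH 4
    norm_num at this
    exact this
  have h2 : Real.log 81 ≤ 4 * Real.log H := by
    have := Real.log_le_log (by norm_num) h1
    rwa [Real.log_pow] at this
  refine ⟨?_, ?_, h0⟩
  · exact (Real.log_le_log (by norm_num) (by norm_num)).trans h2
  · exact (Real.log_le_log (by norm_num) (by norm_num)).trans h2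

/-- conjugates of the quotient of differences -/
theorem cms_theta {H : ℝ} (hH : 3 ≤ H) {u v : ℂ} (hu : ‖u‖ ≤ 4 * H ∧ 1 ≤ 16 * H ^ 4 * ‖u‖)
    (hv : ‖v‖ ≤ 4 * H ∧ 1 ≤ 16 * H ^ 4 * ‖v‖) : |Real.log ‖u / v‖| ≤ 9 * Real.log H := by
  have hH0 : 0 < H := by linarith
  obtain ⟨l1, _, l3⟩ := cms_log_le hH
  have key : ∀ w : ℂ, 1 ≤ 16 * H ^ 4 * ‖w‖ → 0 < ‖w‖ := by
    intro w hw
    by_contra h
    have : ‖w‖ = 0 := le_antisymm (not_lt.mp h) (norm_nonneg _)
    rw [this, mul_zero] at hw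
    linarith
  have hu0 := key u hu.2
  have hv0 := key v hv.2
  have a1 : Real.log ‖u‖ ≤ Real.log (4 * H) := Real.log_le_log hu0 hu.1
  have a2 : Real.log ‖v‖ ≤ Real.log (4 * H) := Real.log_le_log hv0 hv.1
  have b : ∀ w : ℂ, 1 ≤ 16 * H ^ 4 * ‖w‖ → 0 ≤ Real.log (16 * H ^ 4) + Real.log ‖w‖ := by
    intro w hw
    rw [← Real.log_mul (by positivity) (key w hw).ne']
    exact Real.log_nonneg hw
  have b1 := b u hu.2
  have b2 := b v hv.2
  have c1 : Real.log (16 * H ^ 4) + Real.log (4 * H) = Real.log 64 + 5 * Real.log H := by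
    rw [← Real.log_mul (by positivity) (by positivity)]
    have : 16 * H ^ 4 * (4 * H) = 64 * H ^ 5 := by ring
    rw [this, Real.log_mul (by norm_num) (by positivity), Real.log_pow]
    norm_num
  rw [norm_div, Real.log_div hu0.ne' hv0.ne', abs_le]
  constructor <;> linarith

theorem st_CMs (h2 : ST_LF) (h1 : ST_LIOU) : ST_CMs := by
  intro K _ _ hK σ hσ π hπ ε1 ε2 α n0 lam H S ν c0 C3 U hH hS hc0 hC3 hN hAl hG hne hsmall hU
  obtain ⟨L, hfd, hrk, hmem, hconj⟩ := h2 K hK σ hσ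
  haveI : FiniteDimensional ℚ L := hfd
  haveI : NumberField L := NumberField.of_module_finite ℚ L
  have hH0 : 0 < H := by linarith
  obtain ⟨l64, l54, lH⟩ := cms_log_le hH
  have hA : (0 : ℝ) ≤ 100 * Real.log H := by linarith
  have hπK := cms_pi_ne hπ
  -- the embeddings into L
  let s : Fin 3 → (K →+* L) := fun i => (σ i).codRestrict L.toSubfield (hmem i)
  let φ : L →+* ℂ := algebraMap L ℂ
  have hφ : ∀ i x, φ (s i x) = σ i x := fun i x => rfl
  have hφinj : Function.Injective φ := φ.injective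
  have hτ : ∀ τ : L →+* ℂ, ∃ j : Fin 3 → Fin 3, Function.Injective j ∧
      ∀ i x, τ (s i x) = σ (j i) x := by
    intro τ
    choose j hj using hconj τ
    refine ⟨j, ?_, fun i x => hj i x (hmem i x)⟩
    intro i i' hii
    apply hσ
    apply RingHom.ext
    intro x
    have e1 : τ (s i x) = τ (s i' x) := by
      rw [show τ (s i x) = σ (j i) x from hj i x (hmem i x),
        show τ (s i' x) = σ (j i') x from hj i' x (hmem i' x), hii]
    have e2 := τ.injective e1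
    rw [← hφ, ← hφ, e2]
  have hs0 : ∀ i (x : K), x ≠ 0 → s i x ≠ 0 := fun i x hx => (map_ne_zero (s i)).mpr hx
  have hsep : ∀ i j, i ≠ j → σ i α - σ j α ≠ 0 := by
    intro i j hij h0
    have := (hAl.sep i j hij).2
    rw [h0, norm_zero, mul_zero] at this
    linarith
  have hssep : ∀ i j, i ≠ j → s i α - s j α ≠ 0 := by
    intro i j hij h0
    apply hsep i j hij
    rw [← hφ, ← hφ, ← map_sub, h0, map_zero]
  have d01 : (0 : Fin 3) ≠ 1 := by decide
  have d02 : (0 : Fin 3) ≠ 2 := by decide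
  have d12 : (1 : Fin 3) ≠ 2 := by decide
  have d21 : (2 : Fin 3) ≠ 1 := by decide
  set θL : L := (s 0 α - s 1 α) / (s 0 α - s 2 α) with hθL
  have hθL0 : θL ≠ 0 := div_ne_zero (hssep 0 1 d01) (hssep 0 2 d02)
  have hφθ : φ θL = (σ 0 α - σ 1 α) / (σ 0 α - σ 2 α) := by
    rw [hθL, map_div₀, map_sub, map_sub, hφ, hφ, hφ]
  set ρ : L := s 1 (π : K) / s 2 (π : K) with hρ
  have hρ0 : ρ ≠ 0 := div_ne_zero (hs0 _ _ hπK) (hs0 _ _ hπK)
  set r1 : L := s 1 ((ε1 : 𝓞 K) : K) / s 2 ((ε1 : 𝓞 K) : K) with hr1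
  set r2 : L := s 1 ((ε2 : 𝓞 K) : K) / s 2 ((ε2 : 𝓞 K) : K) with hr2
  have hε1 : ((ε1 : 𝓞 K) : K) ≠ 0 := Units.coe_ne_zero ε1
  have hε2 : ((ε2 : 𝓞 K) : K) ≠ 0 := Units.coe_ne_zero ε2
  have hr10 : r1 ≠ 0 := div_ne_zero (hs0 _ _ hε1) (hs0 _ _ hε1)
  have hr20 : r2 ≠ 0 := div_ne_zero (hs0 _ _ hε2) (hs0 _ _ hε2)
  have hprod : ∀ p : Fin 3 → ℤ,
      ∏ i, (![(θL * ρ) ^ 2, r1 ^ 2, r2 ^ 2] : Fin 3 → L) i ^ (p i) =
      (θL ^ (p 0) * (s 1 (gel π ε1 ε2 p) / s 2 (gel π ε1 ε2 p))) ^ 2 := by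
    intro p
    have e1 : s 1 (gel π ε1 ε2 p) / s 2 (gel π ε1 ε2 p) = ρ ^ (p 0) * r1 ^ (p 1) * r2 ^ (p 2) := by
      unfold gel
      rw [map_mul, map_mul, map_mul, map_mul, map_zpow₀, map_zpow₀, map_zpow₀, map_zpow₀,
        map_zpow₀, map_zpow₀, hρ, hr1, hr2, div_zpow, div_zpow, div_zpow, mul_div_mul_comm,
        mul_div_mul_comm]
    have sq : ∀ (x : L) (n : ℤ), (x ^ 2) ^ n = (x ^ n) ^ 2 := by
      intro x n
      rw [← zpow_natCast, ← zpow_natCast, ← zpow_mul, ← zpow_mul, mul_comm]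
    rw [e1, Fin.prod_univ_three]
    simp only [Matrix.cons_val_zero, Matrix.cons_val_one, Matrix.cons_val_two, Matrix.head_cons,
      Matrix.tail_cons, Matrix.cons_val]
    rw [sq, sq, sq, mul_zpow]
    ring
  refine ⟨L, inferInstance, inferInstance, φ, ![(θL * ρ) ^ 2, r1 ^ 2, r2 ^ 2], ?_, ?_, ?_⟩
  · exact hrk
  · refine ⟨?_, ?_, ?_, ?_, ?_, ?_, ?_, ?_, ?_, ?_, ?_⟩
    · intro i
      fin_cases i
      · exact pow_ne_zero 2 (mul_ne_zero hθL0 hρ0)
      · exact pow_ne_zero 2 hr10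
      · exact pow_ne_zero 2 hr20
    · intro i
      fin_cases i
      · change Complex.exp (lam 0) = φ ((θL * ρ) ^ 2)
        rw [hG.e0, map_pow, map_mul, hφθ, hρ, map_div₀, hφ, hφ]
      · change Complex.exp (lam 1) = φ (r1 ^ 2)
        rw [hG.e1, map_pow, hr1, map_div₀, hφ, hφ]
      · change Complex.exp (lam 2) = φ (r2 ^ 2)
        rw [hG.e2, map_pow, hr2, map_div₀, hφ, hφ]
    · exact fun p q => cms_nrm_add hπ ε1 ε2 hA lam p q
    · exact fun n p => cms_nrm_smul σ π ε1 ε2 _ lam n p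
    · exact hG.P1
    · exact fun p => (cms_nrm_ge σ π ε1 ε2 hA lam p).1
    · intro p τ
      obtain ⟨j, hj, hjx⟩ := hτ τ
      have hg0 := cms_gel_ne hπ ε1 ε2 p
      rw [hprod]
      have e1 : τ ((θL ^ (p 0) * (s 1 (gel π ε1 ε2 p) / s 2 (gel π ε1 ε2 p))) ^ 2) =
          (((σ (j 0) α - σ (j 1) α) / (σ (j 0) α - σ (j 2) α)) ^ (p 0) *
            (σ (j 1) (gel π ε1 ε2 p) / σ (j 2) (gel π ε1 ε2 p))) ^ 2 := by
        rw [map_pow, map_mul, map_zpow₀, hθL, map_div₀, map_sub, map_sub, map_div₀, hjx, hjx, hjx,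
          hjx, hjx]
      have hth := cms_theta hH (hAl.sep (j 0) (j 1) (fun h => d01 (hj h)))
        (hAl.sep (j 0) (j 2) (fun h => d02 (hj h)))
      have ht0 : (σ (j 0) α - σ (j 1) α) / (σ (j 0) α - σ (j 2) α) ≠ 0 :=
        div_ne_zero (hsep _ _ (fun h => d01 (hj h))) (hsep _ _ (fun h => d02 (hj h)))
      rw [e1, norm_pow, norm_mul, norm_zpow]
      generalize hT : (σ (j 0) α - σ (j 1) α) / (σ (j 0) α - σ (j 2) α) = T at hth ht0 ⊢
      have hTn : 0 < ‖T‖ := norm_pos_iff.mpr ht0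
      have q1 : 0 < ‖σ (j 1) (gel π ε1 ε2 p)‖ := norm_pos_iff.mpr ((map_ne_zero _).mpr hg0)
      have q2 : 0 < ‖σ (j 2) (gel π ε1 ε2 p)‖ := norm_pos_iff.mpr ((map_ne_zero _).mpr hg0)
      rw [norm_div]
      have hpos : 0 < ‖T‖ ^ (p 0) * (‖σ (j 1) (gel π ε1 ε2 p)‖ / ‖σ (j 2) (gel π ε1 ε2 p)‖) := by
        positivity
      rw [← Real.log_le_iff_le_exp (by positivity), Real.log_pow, Real.log_mul (by positivity)
        (by positivity), Real.log_zpow, Real.log_div q1.ne' q2.ne']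
      have t1 : ((p 0 : ℤ) : ℝ) * Real.log ‖T‖ ≤ |((p 0 : ℤ) : ℝ)| * (9 * Real.log H) := by
        refine (le_abs_self _).trans ?_
        rw [abs_mul]
        exact mul_le_mul_of_nonneg_left hth (abs_nonneg _)
      have t2 : ∀ i, |Real.log ‖σ i (gel π ε1 ε2 p)‖| ≤
          ∑ i, |Real.log ‖σ i (gel π ε1 ε2 p)‖| := fun i =>
        Finset.single_le_sum (f := fun i => |Real.log ‖σ i (gel π ε1 ε2 p)‖|)
          (fun _ _ => abs_nonneg _) (Finset.mem_univ i)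
      have t3 := (le_abs_self _).trans (t2 (j 1))
      have t4 := (neg_le_abs _).trans (t2 (j 2))
      have t5 := (cms_nrm_ge σ π ε1 ε2 hA lam p).2.1
      have t6 : 0 ≤ |((p 0 : ℤ) : ℝ)| * Real.log H := mul_nonneg (abs_nonneg _) lH.le
      push_cast
      nlinarith
    · intro p
      obtain ⟨w, hw⟩ := cms_norm_div hπ
      set N : ℕ := (Algebra.norm ℤ π).natAbs with hNdef
      have hNpos : 0 < N := by
        rw [hNdef, Int.natAbs_pos]
        exact Algebra.norm_ne_zero_iff.mpr hπ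
      have hNle : (N : ℝ) ≤ H := by
        rw [hNdef, Nat.cast_natAbs, Int.cast_abs]
        exact hN
      refine ⟨(n0 * N) ^ (2 * (p 0).natAbs), pow_pos (Nat.mul_pos hAl.pos hNpos) _, ?_, ?_⟩
      · have hn0 : (0 : ℝ) < n0 := by exact_mod_cast hAl.pos
        have hN0 : (0 : ℝ) < N := by exact_mod_cast hNpos
        have hpos : (0 : ℝ) < (((n0 * N) ^ (2 * (p 0).natAbs) : ℕ) : ℝ) := by
          exact_mod_cast pow_pos (Nat.mul_pos hAl.pos hNpos) _
        rw [← Real.log_le_iff_le_exp hpos, Nat.cast_pow, Nat.cast_mul, Real.log_pow,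
          Real.log_mul hn0.ne' hN0.ne']
        have u1 : Real.log n0 ≤ Real.log 54 + 6 * Real.log H := by
          have := Real.log_le_log hn0 hAl.le
          rw [Real.log_mul (by norm_num) (by positivity), Real.log_pow] at this
          exact_mod_cast this
        have u2 : Real.log N ≤ Real.log H := Real.log_le_log hN0 hNle
        have u3 : (((2 * (p 0).natAbs : ℕ)) : ℝ) = 2 * |((p 0 : ℤ) : ℝ)| := by
          push_cast
          rw [Nat.cast_natAbs, Int.cast_abs]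
        rw [u3]
        have u4 := (cms_nrm_ge σ π ε1 ε2 hA lam p).2.2
        have u5 : 0 ≤ |((p 0 : ℤ) : ℝ)| := abs_nonneg _
        have u6 : Real.log n0 + Real.log N ≤ 11 * Real.log H := by linarith
        have u7 : 2 * |((p 0 : ℤ) : ℝ)| * (Real.log n0 + Real.log N) ≤
            2 * |((p 0 : ℤ) : ℝ)| * (11 * Real.log H) :=
          mul_le_mul_of_nonneg_left u6 (by linarith)
        have u8 : 0 ≤ |((p 0 : ℤ) : ℝ)| * Real.log H := mul_nonneg u5 lH.le
        nlinarith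
      · rw [hprod]
        -- integrality of the powers of theta
        have hinj : Function.Injective (φ.toIntAlgHom : L →ₐ[ℤ] ℂ) := hφinj
        have i1 : IsIntegral ℤ ((n0 : L) * θL) := by
          rw [← isIntegral_algHom_iff (φ.toIntAlgHom) hinj]
          change IsIntegral ℤ (φ ((n0 : L) * θL))
          rw [map_mul, map_natCast, hφθ]
          exact hAl.int 0 1 2 d01 d02 d12
        have i2 : IsIntegral ℤ ((n0 : L) * θL⁻¹) := by
          rw [← isIntegral_algHom_iff (φ.toIntAlgHom) hinj]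
          change IsIntegral ℤ (φ ((n0 : L) * θL⁻¹))
          rw [map_mul, map_natCast, map_inv₀, hφθ, inv_div]
          exact hAl.int 0 2 1 d02 d01 d21
        have i3 := cms_zpow_int i1 i2 (p 0)
        -- integrality of the powers of rho
        have hsw : ∀ i, IsIntegral ℤ ((N : L) * (s i (π : K))⁻¹) := by
          intro i
          have : (N : L) * (s i (π : K))⁻¹ = s i (w : K) := by
            rw [← hw, map_mul, map_natCast, map_inv₀]
          rw [this]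
          exact map_isIntegral_int (s i) (RingOfIntegers.isIntegral_coe w)
        have hsπ : ∀ i, IsIntegral ℤ (s i (π : K)) := fun i =>
          map_isIntegral_int (s i) (RingOfIntegers.isIntegral_coe π)
        have j1 : IsIntegral ℤ ((N : L) * ρ) := by
          have : (N : L) * ρ = s 1 (π : K) * ((N : L) * (s 2 (π : K))⁻¹) := by
            rw [hρ, div_eq_mul_inv]
            ring
          rw [this]
          exact (hsπ 1).mul (hsw 2)
        have j2 : IsIntegral ℤ ((N : L) * ρ⁻¹) := by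
          have : (N : L) * ρ⁻¹ = s 2 (π : K) * ((N : L) * (s 1 (π : K))⁻¹) := by
            rw [hρ, inv_div, div_eq_mul_inv]
            ring
          rw [this]
          exact (hsπ 2).mul (hsw 1)
        have j3 := cms_zpow_int j1 j2 (p 0)
        -- the unit part
        set v : (𝓞 K)ˣ := ε1 ^ (p 1) * ε2 ^ (p 2) with hv
        have hvc : ((v : 𝓞 K) : K) = ((ε1 : 𝓞 K) : K) ^ (p 1) * ((ε2 : 𝓞 K) : K) ^ (p 2) := by
          exact (Units.coe_mul (ε1 ^ (p 1)) (ε2 ^ (p 2))).trans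
            (congrArg₂ (fun x y : K => x * y) (Units.coe_zpow ε1 (p 1)) (Units.coe_zpow ε2 (p 2)))
        have hvi : ((v⁻¹ : (𝓞 K)ˣ) : K) = ((v : 𝓞 K) : K)⁻¹ := by
          have := Units.coe_zpow v (-1)
          rwa [zpow_neg_one, zpow_neg_one] at this
        have k1 : IsIntegral ℤ (s 1 ((v : 𝓞 K) : K) / s 2 ((v : 𝓞 K) : K)) := by
          rw [div_eq_mul_inv, ← map_inv₀, ← hvi]
          exact (map_isIntegral_int (s 1) (RingOfIntegers.isIntegral_coe _)).mul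
            (map_isIntegral_int (s 2) (RingOfIntegers.isIntegral_coe _))
        have k2 : s 1 (gel π ε1 ε2 p) / s 2 (gel π ε1 ε2 p) =
            ρ ^ (p 0) * (s 1 ((v : 𝓞 K) : K) / s 2 ((v : 𝓞 K) : K)) := by
          have : gel π ε1 ε2 p = (π : K) ^ (p 0) * ((v : 𝓞 K) : K) := by
            rw [hvc]
            unfold gel
            ring
          rw [this, map_mul, map_mul, map_zpow₀, map_zpow₀, hρ, div_zpow, mul_div_mul_comm]
        have k3 : (((n0 * N) ^ (2 * (p 0).natAbs) : ℕ) : L) *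
            (θL ^ (p 0) * (s 1 (gel π ε1 ε2 p) / s 2 (gel π ε1 ε2 p))) ^ 2 =
            (((n0 : L) ^ (p 0).natAbs * θL ^ (p 0)) * ((N : L) ^ (p 0).natAbs * ρ ^ (p 0)) *
              (s 1 ((v : 𝓞 K) : K) / s 2 ((v : 𝓞 K) : K))) ^ 2 := by
          rw [k2]
          push_cast
          rw [mul_comm 2 (p 0).natAbs, pow_mul, mul_pow (n0 : L)]
          ring
        rw [k3]
        exact ((i3.mul j3).mul k1).pow 2
    · intro p hp i
      refine (hG.P2 p i).trans ?_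
      have hS1 : 0 ≤ C3 * (1 + S) := mul_nonneg (by linarith) (by linarith)
      exact mul_le_mul_of_nonneg_left hp hS1
    · intro k hk hk1
      change ((θL * ρ) ^ 2) ^ k = 1 at hk1
      have hφG : φ (θL * ρ) = (σ 0 α - σ 1 α) / (σ 0 α - σ 2 α) *
          (σ 1 (π : K) / σ 2 (π : K)) := by
        rw [map_mul, hφθ, hρ, map_div₀, hφ, hφ]
      rw [← hφG] at hne hsmall
      set G : L := θL * ρ with hGdef
      have hG2 : G ^ (2 * k.natAbs) = 1 := by
        rcases Int.natAbs_eq k with h | h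
        · rw [h, zpow_natCast, ← pow_mul] at hk1
          exact hk1
        · rw [h, zpow_neg, zpow_natCast, ← pow_mul, inv_eq_one] at hk1
          exact hk1
      have hn : 2 * k.natAbs ≠ 0 := by
        have := Int.natAbs_pos.mpr hk
        omega
      have hGint : IsIntegral ℤ G := by
        refine IsIntegral.of_pow (Nat.pos_of_ne_zero hn) ?_
        rw [hG2]
        exact isIntegral_one
      have hz : G - 1 ≠ 0 := by
        intro h0
        apply hne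
        rw [sub_eq_zero.mp h0, map_one]
      have hzi : IsIntegral ℤ (((1 : ℕ) : L) * (G - 1)) := by
        rw [Nat.cast_one, one_mul]
        exact hGint.sub isIntegral_one
      have hzM : ∀ τ : L →+* ℂ, ‖τ (G - 1)‖ ≤ 2 := by
        intro τ
        have e1 : ‖τ G‖ = 1 := by
          have : ‖τ G‖ ^ (2 * k.natAbs) = 1 := by
            rw [← norm_pow, ← map_pow, hG2, map_one, norm_one]
          exact (pow_eq_one_iff_of_nonneg (norm_nonneg _) hn).mp this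
        rw [map_sub, map_one]
        refine (norm_sub_le _ _).trans ?_
        rw [e1, norm_one]
        norm_num
      have hL := h1 L φ (G - 1) hz 1 one_pos hzi 2 (by norm_num) hzM
      rw [map_sub, map_one, Nat.cast_one, one_pow, one_mul] at hL
      have hrk' : Module.finrank ℚ L - 1 ≤ 26 := by
        have := hrk
        omega
      have h26 : (2 : ℝ) ^ (Module.finrank ℚ L - 1) ≤ 2 ^ 26 :=
        pow_le_pow_right₀ (by norm_num) hrk'
      have : ‖φ G - 1‖ * 2 ^ (Module.finrank ℚ L - 1) ≤ 1 / 2 ^ 30 * 2 ^ 26 :=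
        mul_le_mul hsmall h26 (by positivity) (by positivity)
      have h3 : (1 : ℝ) ≤ 1 / 2 ^ 30 * 2 ^ 26 := hL.trans this
      norm_num at h3
    · exact hU
  · intro p
    rw [hprod, ← hφθ]
    have e1 : (φ θL ^ (p 0) * (σ 1 (gel π ε1 ε2 p) / σ 2 (gel π ε1 ε2 p))) ^ 2 =
        φ ((θL ^ (p 0) * (s 1 (gel π ε1 ε2 p) / s 2 (gel π ε1 ε2 p))) ^ 2) := by
      rw [map_pow, map_mul, map_zpow₀,
        map_div₀ φ (s 1 (gel π ε1 ε2 p)) (s 2 (gel π ε1 ε2 p)), hφ, hφ]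
    rw [e1]
    constructor
    · intro h
      rw [h, map_one]
    · intro h
      apply hφinj
      rw [h, map_one]

end Pool.Helper99.BK
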